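import Pool.Agent.Helper95.MI.CI

/-!
Hilbert functions and staircases.
-/

set_option autoImplicit false

namespace Pool.Agent.Helper95.ME

open Pool.Agent.Helper95.MI

/-- the Hilbert function of a staircase -/
def hg (g τ : ℕ) (c : ℕ → ℕ) (n : ℕ) : ℕ :=
  (if n < g then 1 else 0) +
    ((Finset.range τ).filter fun i => τ - i ≤ n ∧ n + i + c i < τ + g).card

theorem card_window {A B N : ℕ} {p : ℕ → Prop} [DecidablePred p] (hN : B ≤ N)
    (hp : ∀ i < N, p i ↔ A ≤ i ∧ i < B) : ((Finset.range N).filter p).card = B - A := by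
  have : (Finset.range N).filter p = Finset.Ico A B := by
    ext i
    simp only [Finset.mem_filter, Finset.mem_range, Finset.mem_Ico]
    constructor
    · rintro ⟨h1, h2⟩
      exact (hp i h1).1 h2
    · rintro ⟨h1, h2⟩
      have h3 : i < N := by omega
      exact ⟨h3, (hp i h3).2 ⟨h1, h2⟩⟩
  rw [this, Nat.card_Ico]

theorem ciH_high {s t n : ℕ} (hst : s ≤ t) (hn : t ≤ n) : ciH s t n = s + t - 1 - n := by
  rw [ciH_eq]
  have h1 := card_window (A := n + 1 - t) (B := s) (N := s)
    (p := fun i => i ≤ n ∧ n - i < t) le_rfl (fun i hi => by omega)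
  rw [h1]
  omega

section

variable {h : ℕ → ℕ} {s t : ℕ}

theorem comb_bd (h3 : h t < s) (h4 : ∀ n, t ≤ n → h (n + 1) < h n ∨ h n = 0)
    (h5 : ∀ n, h n = 0 → h (n + 1) = 0) (d : ℕ) : h (t + d) + d + 1 ≤ s ∨ h (t + d) = 0 := by
  induction d with
  | zero =>
    left
    simp only [add_zero]
    omega
  | succ d ih =>
    rcases ih with ih | ih
    · rcases h4 (t + d) (by omega) with h6 | h6
      · left
        rw [show t + (d + 1) = t + d + 1 by omega]
        omega
      · right
        exact h5 _ h6
    · right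
      exact h5 _ ih

theorem comb_anti (h4 : ∀ n, t ≤ n → h (n + 1) < h n ∨ h n = 0)
    (h5 : ∀ n, h n = 0 → h (n + 1) = 0) {d d' : ℕ} (hd : d ≤ d') : h (t + d') ≤ h (t + d) := by
  induction d', hd using Nat.le_induction with
  | base => exact le_rfl
  | succ e _ ih =>
    rcases h4 (t + e) (by omega) with h6 | h6
    · rw [← add_assoc]
      omega
    · have := h5 _ h6
      rw [← add_assoc]
      omega

/-- the conjugate of the descending part -/
theorem comb_conj (h3 : h t < s) (h4 : ∀ n, t ≤ n → h (n + 1) < h n ∨ h n = 0)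
    (h5 : ∀ n, h n = 0 → h (n + 1) = 0) : ∃ X : ℕ → ℕ, ∀ j d, d < X j ↔ j < h (t + d) := by
  have hex : ∀ j, ∃ d, h (t + d) ≤ j := by
    intro j
    refine ⟨s, ?_⟩
    rcases comb_bd h3 h4 h5 s with h6 | h6
    · omega
    · omega
  classical
  refine ⟨fun j => Nat.find (hex j), fun j d => ?_⟩
  constructor
  · intro h6
    have := Nat.find_min (hex j) h6
    omega
  · intro h6
    by_contra h7
    have h7' : Nat.find (hex j) ≤ d := not_lt.1 h7
    have h8 := comb_anti h4 h5 (t := t) h7'
    have h9 : h (t + Nat.find (hex j)) ≤ j := Nat.find_spec (hex j)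
    omega

theorem comb_inv {lam : ℕ → ℕ} (hex : ∃ j, lam j = 0) (ha : ∀ j, lam (j + 1) ≤ lam j) :
    ∃ c : ℕ → ℕ, ∀ n j, j < c n ↔ n < lam j := by
  obtain ⟨j₀, hj₀⟩ := hex
  have hex' : ∀ n, ∃ j, lam j ≤ n := fun n => ⟨j₀, by omega⟩
  have hanti : Antitone lam := antitone_nat_of_succ_le ha
  classical
  refine ⟨fun n => Nat.find (hex' n), fun n j => ?_⟩
  constructor
  · intro h6
    have := Nat.find_min (hex' n) h6
    omega
  · intro h6
    by_contra h7
    have h7' : Nat.find (hex' n) ≤ j := not_lt.1 h7
    have h8 := hanti h7'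
    have h9 : lam (Nat.find (hex' n)) ≤ n := Nat.find_spec (hex' n)
    omega

theorem comb {h : ℕ → ℕ} {s t : ℕ} (hs : 1 ≤ s) (hst : s ≤ t) (h1 : ∀ n < s, h n = n + 1)
    (h2 : ∀ n, s ≤ n → n < t → h n = s) (h3 : h t < s)
    (h4 : ∀ n, t ≤ n → h (n + 1) < h n ∨ h n = 0) (h5 : ∀ n, h n = 0 → h (n + 1) = 0) :
    ∃ lam c : ℕ → ℕ, (∀ n j, j < c n ↔ n < lam j) ∧ (∀ n, 0 < c n → c n + n + 1 ≤ s) ∧
      (∀ j, j ≤ c 0 → j + lam j ≤ c 0) ∧ (∀ n, hg s (t - 1) c n = h n) ∧
      (∀ n, hg t (s - 1) c n = h n) ∧
      lam 0 + (Function.support h).ncard = s + t - 1 ∧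
      c 0 = {n | h n ≠ ciH s t n}.ncard := by
  obtain ⟨X, hX⟩ := comb_conj h3 h4 h5
  have hbd := comb_bd h3 h4 h5
  have hXs : ∀ j, X j ≤ X (j + 1) + 1 := by
    intro j
    by_contra hcon
    have e1 := (hX j (X (j + 1) + 1)).1 (by omega)
    have e2 : ¬ (j + 1 < h (t + X (j + 1))) := fun e => lt_irrefl _ ((hX (j + 1) _).2 e)
    rcases h4 (t + X (j + 1)) (by omega) with e3 | e3
    · rw [← add_assoc] at e1
      omega
    · have := h5 _ e3
      rw [← add_assoc] at e1
      omega
  have hXa : ∀ j, X (j + 1) ≤ X j := by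
    intro j
    by_contra hcon
    have e1 := (hX (j + 1) (X j)).1 (by omega)
    have e2 : ¬ (j < h (t + X j)) := fun e => lt_irrefl _ ((hX j _).2 e)
    omega
  have hXb : ∀ j, j < s → X j + j + 1 ≤ s := by
    intro j hj
    rcases Nat.eq_zero_or_pos (X j) with e | e
    · omega
    · have e1 := (hX j (X j - 1)).1 (by omega)
      rcases hbd (X j - 1) with e2 | e2 <;> omega
  obtain ⟨lam, hlam⟩ : ∃ lam : ℕ → ℕ, ∀ j, lam j = s - (j + 1) - X j := ⟨_, fun _ => rfl⟩
  have hla : ∀ j, lam (j + 1) ≤ lam j := by
    intro j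
    have := hXs j
    rw [hlam, hlam]
    omega
  have hlb : ∀ j, lam j ≤ lam (j + 1) + 1 := by
    intro j
    have := hXa j
    rw [hlam, hlam]
    omega
  obtain ⟨c, hc⟩ := comb_inv (lam := lam) ⟨s, by rw [hlam]; omega⟩ hla
  have hcs : ∀ n, 0 < c n → c n + n + 1 ≤ s := by
    intro n hn
    have e1 := (hc n (c n - 1)).1 (by omega)
    rw [hlam] at e1
    omega
  have hl0 : lam (c 0) = 0 := by
    by_contra hcon
    exact lt_irrefl _ ((hc 0 (c 0)).2 (by omega))
  have hhigh : ∀ n, t ≤ n → h n ≤ s + t - 1 - n := by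
    intro n hn
    have := hbd (n - t)
    rw [show t + (n - t) = n by omega] at this
    omega
  have hXn : ∀ j n, t ≤ n → (n - t < X j ↔ j < h n) := by
    intro j n hn
    rw [hX, show t + (n - t) = n by omega]
  -- the count for large degrees
  have hbig : ∀ n, t ≤ n → ∀ N, s - 1 ≤ N → ∀ p : ℕ → Prop, ∀ _ : DecidablePred p,
      (∀ i < N, p i ↔ n + i + c i < s + t - 1) → ((Finset.range N).filter p).card = h n := by
    intro n hn N hN p hdec hp
    rcases le_or_gt (s + t - 1) n with hM | hM
    · have e1 := hhigh n hn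
      have e2 : (Finset.range N).filter p = ∅ := by
        apply Finset.filter_false_of_mem
        intro i hi hpi
        have := (hp i (Finset.mem_range.1 hi)).1 hpi
        omega
      rw [e2, Finset.card_empty]
      omega
    · have e1 := hhigh n hn
      rw [← Finset.card_range (h n)]
      refine Finset.card_bij (fun i _ => s + t - 2 - n - i) ?_ ?_ ?_
      · intro i hi
        rw [Finset.mem_filter, Finset.mem_range] at hi
        have e2 := (hp i hi.1).1 hi.2
        rw [Finset.mem_range]
        have e3 : ¬ (s + t - 2 - n - i < c i) := by omega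
        rw [hc] at e3
        rw [hlam] at e3
        rw [← hXn _ n hn]
        omega
      · intro i hi i' hi' e
        rw [Finset.mem_filter, Finset.mem_range] at hi hi'
        have e2 := (hp i hi.1).1 hi.2
        have e3 := (hp i' hi'.1).1 hi'.2
        omega
      · intro j hj
        rw [Finset.mem_range] at hj
        refine ⟨s + t - 2 - n - j, ?_, by omega⟩
        rw [Finset.mem_filter, Finset.mem_range]
        have e2 := (hXn j n hn).2 hj
        have e3 := hXb j (by omega)
        refine ⟨by omega, (hp _ (by omega)).2 ?_⟩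
        have e4 : ¬ (j < c (s + t - 2 - n - j)) := by
          rw [hc, hlam]
          omega
        omega
  refine ⟨lam, c, hc, hcs, ?_, ?_, ?_, ?_, ?_⟩
  · -- `j + lam j`
    have key : ∀ d j, j + d = c 0 → j + lam j ≤ c 0 := by
      intro d
      induction d with
      | zero =>
        intro j hj
        rw [add_zero] at hj
        rw [hj, hl0]
        omega
      | succ d ih =>
        intro j hj
        have e1 := ih (j + 1) (by omega)
        have e2 := hlb j
        omega
    intro j hj
    exact key (c 0 - j) j (by omega)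
  · intro n
    unfold hg
    rcases Nat.lt_or_ge n t with hn | hn
    · rcases Nat.lt_or_ge n s with hn' | hn'
      · rw [if_pos hn', h1 n hn', card_window (A := t - 1 - n) (B := t - 1) le_rfl]
        · omega
        · intro i hi
          have e1 := hcs i
          omega
      · rw [if_neg (by omega), h2 n hn' hn, card_window (A := t - 1 - n) (B := t - 1 + s - n)
          (by omega)]
        · omega
        · intro i hi
          have e1 := hcs i
          omega
    · rw [if_neg (by omega), zero_add]
      refine hbig n hn (t - 1) (by omega) _ _ (fun i hi => ?_)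
      omega
  · intro n
    unfold hg
    rcases Nat.lt_or_ge n t with hn | hn
    · rw [if_pos hn, card_window (A := s - 1 - n) (B := s - 1) le_rfl]
      · rcases Nat.lt_or_ge n s with hn' | hn'
        · rw [h1 n hn']
          omega
        · rw [h2 n hn' hn]
          omega
      · intro i hi
        have e1 := hcs i
        omega
    · rw [if_neg (by omega), zero_add]
      refine hbig n hn (s - 1) (by omega) _ _ (fun i hi => ?_)
      omega
  · have e1 : Function.support h = (Finset.range (t + X 0) : Set ℕ) := by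
      ext n
      simp only [Function.mem_support, Finset.coe_range, Set.mem_Iio]
      rcases Nat.lt_or_ge n t with hn | hn
      · rcases Nat.lt_or_ge n s with hn' | hn'
        · rw [h1 n hn']
          omega
        · rw [h2 n hn' hn]
          omega
      · have := hXn 0 n hn
        omega
    rw [e1, Set.ncard_coe_finset, Finset.card_range, hlam]
    have := hXb 0 (by omega)
    omega
  · have e1 : {n | h n ≠ ciH s t n} = (Finset.Ico (s + t - 1 - c 0) (s + t - 1) : Set ℕ) := by
      ext n
      simp only [Set.mem_setOf_eq, Finset.coe_Ico, Set.mem_Ico]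
      have e0 := hcs 0
      rcases Nat.lt_or_ge n t with hn | hn
      · rcases Nat.lt_or_ge n s with hn' | hn'
        · rw [h1 n hn', ciH_lt hst hn']
          omega
        · rw [h2 n hn' hn, ciH_mid hn' hn]
          omega
      · rw [ciH_high hst hn]
        have e2 := hhigh n hn
        rcases le_or_gt (s + t - 1) n with hM | hM
        · omega
        · have e3 := hXn (s + t - 2 - n) n hn
          have e4 := hc 0 (s + t - 2 - n)
          rw [hlam] at e4
          have e5 := hXb (s + t - 2 - n) (by omega)
          omega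
    rw [e1, Set.ncard_coe_finset, Nat.card_Ico]
    have := hcs 0
    omega

end

end Pool.Agent.Helper95.ME
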