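import Pool.Agent.Helper95.ME.ColDefs
import Pool.Agent.Helper84.ME.Comb

/-!
The h-vector of the curves of `Kern` whose ideal `J` is given by columns.
-/

set_option autoImplicit false

namespace Pool.Agent.Helper95.ME

open MvPolynomial Module Pool.Agent.Helper95.MI

section

variable {k : Type*} [Field k]

theorem ext_top : ext (⊤ : Ideal (SS k)) = ⊤ := Ideal.map_top _

theorem ext_span (f : SS k) : ext (Ideal.span {f}) = Ideal.span {iot f} := by
  rw [ext, Ideal.map_span, Set.image_singleton]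

theorem ext_Jc_succ (b gg : ℕ → SS k) (n : ℕ) : ext (Jc b gg (n + 1)) =
    Ideal.span {iot (gg n)} ⊔ Ideal.span {iot (b n)} * ext (Jc b gg n) := by
  rw [Jc, ext, Ideal.map_sup, Ideal.map_mul, ← ext, ← ext, ← ext, ext_span, ext_span]

theorem Hom.top : Hom (⊤ : Ideal (RR k)) := fun _ _ _ => Submodule.mem_top

theorem Hom.span_mul {B : RR k} {d : ℕ} (hB : B.IsHomogeneous d) {L : Ideal (RR k)} (hL : Hom L) :
    Hom (Ideal.span {B} * L) := by
  intro x hx n
  obtain ⟨z, hz, rfl⟩ := Ideal.mem_span_singleton_mul.1 hx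
  rcases lt_or_ge n d with h | h
  · rw [hc_mul_lt hB h]
    exact Submodule.zero_mem _
  · obtain ⟨m, rfl⟩ := Nat.exists_eq_add_of_le h
    rw [hc_mul hB]
    exact Ideal.mem_span_singleton_mul.2 ⟨_, hL z hz m, rfl⟩

theorem hom_ext_Jc {b gg : ℕ → SS k} {p : ℕ → ℕ} {τ : ℕ} (hb : ∀ n < τ, (b n).IsHomogeneous 1)
    (hg : ∀ n < τ, (gg n).IsHomogeneous (p n)) : ∀ n ≤ τ, Hom (ext (Jc b gg n)) := by
  intro n
  induction n with
  | zero =>
    intro _
    rw [Jc, ext_top]
    exact Hom.top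
  | succ n ih =>
    intro hn
    rw [ext_Jc_succ]
    exact (Hom.span (iot_hom (hg n (by omega)))).sup
      (Hom.span_mul (iot_hom (hb n (by omega))) (ih (by omega)))

theorem PP_span_mul {L : Ideal (RR k)} {B : RR k} {s : ℕ} (hB : B.IsHomogeneous s) (hB0 : B ≠ 0)
    (n : ℕ) : PP (Ideal.span {B} * L) (s + n) = (PP L n).map (mulF B) := by
  ext x
  rw [Submodule.mem_map]
  constructor
  · rintro ⟨hx, hI⟩
    obtain ⟨y, hy, rfl⟩ := Ideal.mem_span_singleton_mul.1 hI
    exact ⟨y, ⟨hom_right hx hB hB0, hy⟩, rfl⟩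
  · rintro ⟨y, ⟨hy, hI⟩, rfl⟩
    exact ⟨hB.mul hy, Ideal.mem_span_singleton_mul.2 ⟨y, hI, rfl⟩⟩

theorem PP_span_mul_lt {L : Ideal (RR k)} {B : RR k} {s : ℕ} (hB : B.IsHomogeneous s)
    {n : ℕ} (hn : n < s) : PP (Ideal.span {B} * L) n = ⊥ := by
  rw [eq_bot_iff]
  rintro x ⟨hx, hI⟩
  obtain ⟨y, hy, rfl⟩ := Ideal.mem_span_singleton_mul.1 hI
  rw [Submodule.mem_bot, ← hc_self hx, hc_mul_lt hB hn]

theorem pd_span_mul {L : Ideal (RR k)} {B : RR k} {s : ℕ} (hB : B.IsHomogeneous s) (hB0 : B ≠ 0)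
    (n : ℤ) : pd (Ideal.span {B} * L) n = pd L (n - s) := by
  rcases lt_or_ge n s with h | h
  · rw [pd_neg L (by omega : n - (s : ℤ) < 0)]
    rcases lt_or_ge n 0 with h0 | h0
    · rw [pd_neg _ h0]
    · obtain ⟨m, rfl⟩ := Int.eq_ofNat_of_zero_le h0
      rw [pd_nat, PP_span_mul_lt hB (by exact_mod_cast h), finrank_bot]
      rfl
  · obtain ⟨m, hm⟩ := Int.eq_ofNat_of_zero_le (sub_nonneg.2 h)
    have h1 : n = ((s + m : ℕ) : ℤ) := by
      push_cast
      omega
    rw [hm, h1, pd_nat, pd_nat, PP_span_mul hB hB0]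
    exact_mod_cast (Submodule.equivMapOfInjective _ (mulF_inj hB0) (PP L m)).finrank_eq.symm

theorem prime_iot {b : SS k} (hb : Prime b) : Prime (iot b : RR k) := by
  have h1 : Prime (ee (iot b)) := by
    rw [ee_iot]
    exact Polynomial.prime_C_iff.2 hb
  exact (MulEquiv.prime_iff (ee : RR k ≃ₐ[k] Polynomial (SS k)).toMulEquiv).1 h1

theorem iot_dvd {b g : SS k} (h : (iot b : RR k) ∣ iot g) : b ∣ g := by
  obtain ⟨u, hu⟩ := h
  have h1 := congrArg ee hu
  rw [map_mul, ee_iot, ee_iot] at h1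
  have h2 := congrArg (fun q => Polynomial.coeff q 0) h1
  simp only [Polynomial.coeff_C_zero, Polynomial.coeff_C_mul] at h2
  exact ⟨_, h2⟩

theorem inf_span_mul {L : Ideal (RR k)} {G B : RR k} (hB : Prime B) (hd : ¬ B ∣ G) (hG : G ∈ L) :
    Ideal.span {G} ⊓ (Ideal.span {B} * L) = Ideal.span {G * B} := by
  apply le_antisymm
  · rintro x ⟨h1, h2⟩
    obtain ⟨y, rfl⟩ := Ideal.mem_span_singleton'.1 h1
    obtain ⟨z, hz, hzz⟩ := Ideal.mem_span_singleton_mul.1 h2
    have h3 : B ∣ y * G := ⟨z, hzz.symm⟩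
    rcases hB.dvd_or_dvd h3 with h4 | h4
    · obtain ⟨u, rfl⟩ := h4
      rw [Ideal.mem_span_singleton]
      exact ⟨u, by ring⟩
    · exact absurd h4 hd
  · rw [Ideal.span_singleton_le_iff_mem]
    refine ⟨Ideal.mul_mem_right _ _ (Ideal.mem_span_singleton_self G), ?_⟩
    exact Ideal.mem_span_singleton_mul.2 ⟨G, hG, mul_comm _ _⟩

theorem pd_Jc_succ {b gg : ℕ → SS k} {p : ℕ → ℕ} {τ : ℕ} (hb : ∀ n < τ, (b n).IsHomogeneous 1)
    (hg : ∀ n < τ, (gg n).IsHomogeneous (p n)) (hm : ∀ n < τ, gg n ∈ Jc b gg n)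
    (hp : ∀ n < τ, Prime (b n)) (hd : ∀ n < τ, ¬ b n ∣ gg n) : ∀ n < τ, ∀ m : ℤ,
    pd (ext (Jc b gg (n + 1))) m =
      pd (ext (Jc b gg n)) (m - 1) + vd (m - p n) - vd (m - 1 - p n) := by
  intro n hn m
  have hB := iot_hom (hb n hn)
  have hG := iot_hom (hg n hn)
  have hBp := prime_iot (hp n hn)
  have hBG : ¬ (iot (b n) : RR k) ∣ iot (gg n) := fun h => hd n hn (iot_dvd h)
  have hG0 : (iot (gg n) : RR k) ≠ 0 := by
    intro h0
    rw [h0] at hBG
    exact hBG (dvd_zero _)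
  have hL := hom_ext_Jc hb hg n hn.le
  have h1 := pd_sup_inf (Hom.span hG) (Hom.span_mul hB hL) m
  rw [inf_span_mul hBp hBG (iot_mem_ext.2 (hm n hn)), pd_span (hG.mul hB)
    (mul_ne_zero hG0 hBp.ne_zero), pd_span hG hG0, pd_span_mul hB hBp.ne_zero] at h1
  rw [ext_Jc_succ]
  push_cast at h1
  rw [show m - ((p n : ℤ) + 1) = m - 1 - p n by ring] at h1
  linarith

/-- the second difference of `vd` -/
theorem dd_vd (m : ℤ) : vd m - 2 * vd (m - 1) + vd (m - 2) = max (m + 1) 0 := by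
  rcases lt_or_ge m (-1) with h | h
  · rw [vd_neg (by omega), vd_neg (by omega), vd_neg (by omega), max_eq_right (by omega)]
    ring
  · rw [vd_diff h, max_eq_left (by omega)]

theorem dd_Jc {b gg : ℕ → SS k} {p : ℕ → ℕ} {τ : ℕ} (hb : ∀ n < τ, (b n).IsHomogeneous 1)
    (hg : ∀ n < τ, (gg n).IsHomogeneous (p n)) (hm : ∀ n < τ, gg n ∈ Jc b gg n)
    (hp : ∀ n < τ, Prime (b n)) (hd : ∀ n < τ, ¬ b n ∣ gg n) : ∀ j ≤ τ, ∀ m : ℤ,
    pd (ext (Jc b gg j)) m - 2 * pd (ext (Jc b gg j)) (m - 1) + pd (ext (Jc b gg j)) (m - 2) =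
      max (m - j + 1) 0 +
        ∑ i ∈ Finset.range j, if (p i : ℤ) + (j - 1 - i) ≤ m then (1 : ℤ) else 0 := by
  intro j
  induction j with
  | zero =>
    intro _ m
    rw [Jc, ext_top, pd_top, pd_top, pd_top, dd_vd]
    simp
  | succ j ih =>
    intro hj m
    have h1 := pd_Jc_succ hb hg hm hp hd j (by omega)
    rw [h1, h1, h1]
    have h2 := ih (by omega) (m - 1)
    have h3 := dd_vd (m - p j)
    have h4 := dd_vd (m - 1 - p j)
    rw [Finset.sum_range_succ]
    have h5 : ∀ i ∈ Finset.range j, (if (p i : ℤ) + (((j + 1 : ℕ) : ℤ) - 1 - i) ≤ m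
        then (1 : ℤ) else 0) = if (p i : ℤ) + (j - 1 - i) ≤ m - 1 then (1 : ℤ) else 0 := by
      intro i _
      congr 1
      push_cast
      exact propext ⟨fun h => by linarith, fun h => by linarith⟩
    rw [Finset.sum_congr rfl h5]
    have h6 : (if (p j : ℤ) + (((j + 1 : ℕ) : ℤ) - 1 - j) ≤ m then (1 : ℤ) else 0) =
        max (m - p j + 1) 0 - max (m - 1 - p j + 1) 0 := by
      push_cast
      split_ifs with h
      · rw [max_eq_left (by linarith), max_eq_left (by linarith)]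
        ring
      · rw [max_eq_right (by omega), max_eq_right (by omega)]
        ring
    rw [h6, ← h3, ← h4]
    have e1 : m - 1 - (p j : ℤ) = m - p j - 1 := by ring
    have e2 : m - 1 - 1 - (p j : ℤ) = m - p j - 2 := by ring
    have e3 : m - 2 - (p j : ℤ) = m - p j - 2 := by ring
    have e4 : m - 1 - 2 - (p j : ℤ) = m - p j - 3 := by ring
    have e5 : m - p j - 1 - 1 = m - (p j : ℤ) - 2 := by ring
    have e6 : m - p j - 1 - 2 = m - (p j : ℤ) - 3 := by ring
    have e7 : m - 2 - 1 = m - 1 - 2 := by ring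
    have e8 : m - ((j + 1 : ℕ) : ℤ) + 1 = m - 1 - j + 1 := by
      push_cast
      ring
    rw [e8, e7]
    simp only [e1, e2, e3, e4, e5, e6]
    linarith

theorem hvec_formula (D : CD k) {b gg : ℕ → SS k} {c : ℕ → ℕ} {τ g : ℕ}
    (hb : ∀ n < τ, (b n).IsHomogeneous 1) (hgg : ∀ n < τ, (gg n).IsHomogeneous (g - c n))
    (hc : ∀ n < τ, c n ≤ g) (hm : ∀ n < τ, gg n ∈ Jc b gg n)
    (hp : ∀ n < τ, Prime (b n)) (hd : ∀ n < τ, ¬ b n ∣ gg n) (hJ : D.J = Jc b gg τ)
    (hF : D.F.IsHomogeneous g) (hom : Hom D.I) : ∀ n : ℕ, hvec D.I n = hg g τ c n := by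
  intro n
  have homJ : Hom (ext D.J) := by
    rw [hJ]
    exact hom_ext_Jc (p := fun n => g - c n) hb hgg τ le_rfl
  have h1 := D.pd_I hom homJ
  have h2 := dd_Jc (p := fun n => g - c n) hb hgg hm hp hd τ le_rfl ((n : ℤ) - 1)
  have h3 := dd_vd ((n : ℤ) - g)
  have h4 := dd_vd ((n : ℤ) - 1 - g)
  have hF0 : (iot D.F : RR k) ≠ 0 := (prime_iot D.hF).ne_zero
  have h5 : ∀ m : ℤ, pd (ext (Ideal.span {D.F})) m = vd (m - g) := by
    intro m
    rw [ext_span, pd_span (iot_hom hF) hF0]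
  rw [hvec_eq _ _ (by omega), h1, h1, h1, hJ]
  simp only [h5]
  unfold hg
  have h6 : ((Finset.range τ).filter fun i => τ - i ≤ n).card = min n τ := by
    have h7 := card_window (A := τ - n) (B := τ) (N := τ) (p := fun i => τ - i ≤ n) le_rfl
      (fun i hi => by omega)
    rw [h7]
    omega
  have h8 : ((Finset.range τ).filter fun i => τ - i ≤ n ∧ n + i + c i < τ + g).card +
      ((Finset.range τ).filter fun i => τ + g ≤ n + i + c i).card = min n τ := by
    rw [← h6, ← Finset.card_union_of_disjoint]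
    · congr 1
      ext i
      simp only [Finset.mem_union, Finset.mem_filter, Finset.mem_range]
      constructor
      · rintro (h | h)
        · exact ⟨h.1, h.2.1⟩
        · have := hc i h.1
          exact ⟨h.1, by omega⟩
      · rintro ⟨h, h'⟩
        rcases lt_or_ge (n + i + c i) (τ + g) with h9 | h9
        · exact Or.inl ⟨h, h', h9⟩
        · exact Or.inr ⟨h, h9⟩
    · rw [Finset.disjoint_filter]
      intro i _ h h'
      omega
  have h9 : (∑ i ∈ Finset.range τ, if (((g - c i : ℕ) : ℤ)) + (τ - 1 - i) ≤ (n : ℤ) - 1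
      then (1 : ℤ) else 0) =
      (((Finset.range τ).filter fun i => τ + g ≤ n + i + c i).card : ℤ) := by
    rw [Finset.card_filter]
    push_cast
    refine Finset.sum_congr rfl fun i hi => ?_
    have h10 := hc i (Finset.mem_range.1 hi)
    have h11 := Finset.mem_range.1 hi
    congr 1
    rw [Nat.cast_sub h10]
    exact propext ⟨fun h => by omega, fun h => by omega⟩
  rw [h9] at h2
  have e1 : (n : ℤ) - 1 - g = n - g - 1 := by ring
  have e2 : (n : ℤ) - 1 - 1 - g = n - g - 2 := by ring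
  have e3 : (n : ℤ) - 2 - g = n - g - 2 := by ring
  have e4 : (n : ℤ) - 1 - 2 - g = n - g - 3 := by ring
  have e5 : (n : ℤ) - g - 1 - 1 = n - g - 2 := by ring
  have e6 : (n : ℤ) - g - 1 - 2 = n - g - 3 := by ring
  have e7 : (n : ℤ) - 2 - 1 = n - 1 - 2 := by ring
  rw [e7]
  simp only [e1, e2, e3, e4, e5, e6] at h3 h4 ⊢
  push_cast
  have h8' : (((Finset.range τ).filter fun i => τ - i ≤ n ∧ n + i + c i < τ + g).card : ℤ) +
      ((Finset.range τ).filter fun i => τ + g ≤ n + i + c i).card = min (n : ℤ) τ := by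
    exact_mod_cast h8
  have h12 : (if n < g then (1 : ℤ) else 0) = 1 - (max ((n : ℤ) - g + 1) 0 -
      max ((n : ℤ) - g - 1 + 1) 0) := by
    split_ifs with h
    · rw [max_eq_right (by omega), max_eq_right (by omega)]
      ring
    · rw [max_eq_left (by omega), max_eq_left (by omega)]
      ring
  have h13 : min (n : ℤ) τ = n - max ((n : ℤ) - 1 - τ + 1) 0 := by
    rcases le_total n τ with h | h
    · rw [min_eq_left (by exact_mod_cast h), max_eq_right (by omega)]
      ring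
    · rw [min_eq_right (by exact_mod_cast h), max_eq_left (by omega)]
      ring
  rw [h12]
  rw [h13] at h8'
  linarith

end

end Pool.Agent.Helper95.ME
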