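import Pool.Agent.Helper95.MI.Bez
import Pool.Agent.Helper84.ME.Comb

/-!
Numerical inequalities for the curves of the second theorem.
-/

set_option autoImplicit false

namespace Pool.Agent.Helper95.ME

open Pool.Agent.Helper95.MI

/-- the number of conditions -/
def AA (h : ℕ → ℕ) (s t : ℕ) : ℤ :=
  ∑ i ∈ Finset.range t, ((t : ℤ) - i) * ((h i : ℤ) - if i < s then 1 else 0)

theorem sum_min (s u : ℕ) :
    2 * ∑ i ∈ Finset.range (s + u), ((min i s : ℕ) : ℤ) = s * (s - 1) + 2 * s * u := by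
  induction u with
  | zero =>
    have h1 : ∑ i ∈ Finset.range (s + 0), ((min i s : ℕ) : ℤ) = ((∑ i ∈ Finset.range s, i : ℕ) : ℤ) := by
      rw [add_zero]
      push_cast
      refine Finset.sum_congr rfl fun i hi => ?_
      rw [Finset.mem_range] at hi
      rw [min_eq_left (by exact_mod_cast hi.le)]
    have h2 := Finset.sum_range_id_mul_two s
    have h3 : ((∑ i ∈ Finset.range s, i : ℕ) : ℤ) * 2 = s * (s - 1) := by
      rcases Nat.eq_zero_or_pos s with rfl | hs
      · simp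
      · have : ((s - 1 : ℕ) : ℤ) = s - 1 := by
          rw [Nat.cast_sub hs]
          norm_num
        rw [← this]
        exact_mod_cast h2
    rw [h1]
    push_cast at h3 ⊢
    linarith
  | succ u ih =>
    rw [← add_assoc, Finset.sum_range_succ, mul_add, ih, min_eq_right (by omega)]
    push_cast
    ring

theorem sum_wt (s u : ℕ) :
    6 * ∑ i ∈ Finset.range (s + u), (((s + u : ℕ) : ℤ) - i) * ((min i s : ℕ) : ℤ) =
      (s - 1) * s * (s + 1) + 3 * u * (s * (s - 1)) + 3 * s * (u * (u + 1)) := by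
  have step : ∀ t : ℕ, ∑ i ∈ Finset.range (t + 1), (((t + 1 : ℕ) : ℤ) - i) * ((min i s : ℕ) : ℤ) =
      ∑ i ∈ Finset.range t, ((t : ℤ) - i) * ((min i s : ℕ) : ℤ) +
        ∑ i ∈ Finset.range (t + 1), ((min i s : ℕ) : ℤ) := by
    intro t
    have h1 : ∀ i ∈ Finset.range (t + 1), (((t + 1 : ℕ) : ℤ) - i) * ((min i s : ℕ) : ℤ) =
        ((t : ℤ) - i) * ((min i s : ℕ) : ℤ) + ((min i s : ℕ) : ℤ) := by
      intro i _
      push_cast
      ring
    rw [Finset.sum_congr rfl h1, Finset.sum_add_distrib, Finset.sum_range_succ]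
    ring
  have small : ∀ t : ℕ, t ≤ s →
      6 * ∑ i ∈ Finset.range t, ((t : ℤ) - i) * ((min i s : ℕ) : ℤ) = (t - 1) * t * (t + 1) := by
    intro t
    induction t with
    | zero => simp
    | succ t ih =>
      intro ht
      rw [step, mul_add, ih (by omega)]
      have h1 : ∑ i ∈ Finset.range (t + 1), ((min i s : ℕ) : ℤ) =
          ((∑ i ∈ Finset.range (t + 1), i : ℕ) : ℤ) := by
        push_cast
        refine Finset.sum_congr rfl fun i hi => ?_
        rw [Finset.mem_range] at hi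
        rw [min_eq_left (by exact_mod_cast (by omega : i ≤ s))]
      have h2 : (((∑ i ∈ Finset.range (t + 1), i) * 2 : ℕ) : ℤ) = (((t + 1) * (t + 1 - 1) : ℕ) : ℤ) :=
        congrArg _ (Finset.sum_range_id_mul_two (t + 1))
      rw [Nat.add_sub_cancel] at h2
      rw [h1]
      push_cast at h2 ⊢
      linear_combination 3 * h2
  induction u with
  | zero =>
    have := small s le_rfl
    rw [add_zero, this]
    push_cast
    ring
  | succ u ih =>
    rw [← add_assoc, step, mul_add, ih]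
    have h1 := sum_min s (u + 1)
    rw [← add_assoc] at h1
    have h2 : 6 * ∑ i ∈ Finset.range (s + u + 1), ((min i s : ℕ) : ℤ) =
        3 * (s * (s - 1) + 2 * s * ((u + 1 : ℕ) : ℤ)) := by
      rw [← h1]
      ring
    rw [h2]
    push_cast
    ring

section

variable {h : ℕ → ℕ} {s t : ℕ}

theorem x_nonneg (h1 : ∀ n < s, h n = n + 1) (i : ℕ) :
    (0 : ℤ) ≤ (h i : ℤ) - if i < s then 1 else 0 := by
  split_ifs with hi
  · rw [h1 i hi]
    push_cast
    linarith [Int.natCast_nonneg i]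
  · rw [sub_zero]
    exact Int.natCast_nonneg _

theorem h_zero_large (h3 : h t < s) (h4 : ∀ n, t ≤ n → h (n + 1) < h n ∨ h n = 0)
    (h5 : ∀ n, h n = 0 → h (n + 1) = 0) : ∀ n ≥ s + t, h n = 0 := by
  intro n hn
  have := comb_bd h3 h4 h5 (n - t)
  rw [show t + (n - t) = n by omega] at this
  omega

theorem deg_le (hst : s ≤ t) (h1 : ∀ n < s, h n = n + 1)
    (h2 : ∀ n, s ≤ n → n < t → h n = s) (h3 : h t < s)
    (h4 : ∀ n, t ≤ n → h (n + 1) < h n ∨ h n = 0) (h5 : ∀ n, h n = 0 → h (n + 1) = 0) :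
    deg h ≤ s * t := by
  rw [deg_eq (h_zero_large h3 h4 h5)]
  refine le_trans (Finset.sum_le_sum fun n _ => ?_) (sum_ciH s t (s + t))
  rcases Nat.lt_or_ge n t with hn | hn
  · rcases Nat.lt_or_ge n s with hn' | hn'
    · rw [h1 n hn', ciH_lt hst hn']
    · rw [h2 n hn' hn, ciH_mid hn' hn]
  · rw [ciH_high hst hn]
    have := comb_bd h3 h4 h5 (n - t)
    rw [show t + (n - t) = n by omega] at this
    omega

end

theorem num_one {h : ℕ → ℕ} {s t t₂ : ℕ} (hs : 1 ≤ s) (hst : s ≤ t) (h1 : ∀ n < s, h n = n + 1)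
    (h2 : ∀ n, s ≤ n → n < t → h n = s) (h3 : h t < s)
    (h4 : ∀ n, t ≤ n → h (n + 1) < h n ∨ h n = 0) (h5 : ∀ n, h n = 0 → h (n + 1) = 0)
    (ht : 3 * s < t) (htt : t ≤ t₂) : ((s * deg h : ℕ) : ℤ) < AA h s t₂ := by
  have e1 : ∑ i ∈ Finset.range t, ((t : ℤ) - i) * ((min i s : ℕ) : ℤ) ≤ AA h s t₂ := by
    unfold AA
    have e2 : ∑ i ∈ Finset.range t, ((t₂ : ℤ) - i) * ((h i : ℤ) - if i < s then 1 else 0) ≤
        ∑ i ∈ Finset.range t₂, ((t₂ : ℤ) - i) * ((h i : ℤ) - if i < s then 1 else 0) := by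
      refine Finset.sum_le_sum_of_subset_of_nonneg (Finset.range_mono htt) fun i hi _ => ?_
      rw [Finset.mem_range] at hi
      refine mul_nonneg ?_ (x_nonneg h1 i)
      have : (i : ℤ) < t₂ := by exact_mod_cast hi
      linarith
    refine le_trans (Finset.sum_le_sum fun i hi => ?_) e2
    rw [Finset.mem_range] at hi
    have e3 : ((min i s : ℕ) : ℤ) = (h i : ℤ) - if i < s then 1 else 0 := by
      split_ifs with hi'
      · rw [h1 i hi', min_eq_left hi'.le]
        push_cast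
        ring
      · rw [h2 i (by omega) hi, min_eq_right (by omega), sub_zero]
    rw [e3]
    refine mul_le_mul_of_nonneg_right ?_ (x_nonneg h1 i)
    have : (t : ℤ) ≤ t₂ := by exact_mod_cast htt
    linarith
  refine lt_of_lt_of_le ?_ e1
  have e4 := deg_le hst h1 h2 h3 h4 h5
  have e5 : ((s * deg h : ℕ) : ℤ) ≤ s * (s * t) := by
    push_cast
    have : (deg h : ℤ) ≤ s * t := by exact_mod_cast e4
    exact mul_le_mul_of_nonneg_left this (Int.natCast_nonneg _)
  refine lt_of_le_of_lt e5 ?_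
  obtain ⟨u, hu⟩ := Nat.exists_eq_add_of_le (show 2 * s + 1 ≤ t - s by omega)
  have e6 : t = s + (2 * s + 1 + u) := by omega
  have e7 := sum_wt s (2 * s + 1 + u)
  rw [← e6] at e7
  have e8 : (t : ℤ) = s + (2 * s + 1 + u) := by
    rw [e6]
    push_cast
    ring
  have hs' : (1 : ℤ) ≤ s := by exact_mod_cast hs
  have hu' : (0 : ℤ) ≤ u := Int.natCast_nonneg _
  have e9 : 6 * ((s : ℤ) * (s * t)) < 6 * ∑ i ∈ Finset.range t, ((t : ℤ) - i) * ((min i s : ℕ) : ℤ) := by
    rw [e7, e8]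
    push_cast
    have e10 : (s : ℤ) - 1 + 1 = s := by ring
    have e11 : 0 < (s : ℤ) * (s ^ 2 + 9 * s + 2 + 3 * u * (3 * s + 2) + 3 * u ^ 2) := by
      have : (0 : ℤ) ≤ u * (3 * s + 2) := mul_nonneg hu' (by linarith)
      have : (0 : ℤ) ≤ (u : ℤ) ^ 2 := sq_nonneg _
      have : (0 : ℤ) ≤ (s : ℤ) ^ 2 := sq_nonneg _
      refine mul_pos (by linarith) (by nlinarith)
    have e12 : ((s : ℤ) - 1) * s * (s + 1) + 3 * (2 * s + 1 + u) * (s * (s - 1)) +
        3 * s * ((2 * s + 1 + u) * (2 * s + 1 + u + 1)) - 6 * (s * (s * (s + (2 * s + 1 + u)))) =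
        (s : ℤ) * (s ^ 2 + 9 * s + 2 + 3 * u * (3 * s + 2) + 3 * u ^ 2) := by
      ring
    linarith
  linarith

theorem num_two {h : ℕ → ℕ} {s t t₂ : ℕ} (hs : 1 ≤ s) (hst : s ≤ t) (h1 : ∀ n < s, h n = n + 1)
    (h2 : ∀ n, s ≤ n → n < t → h n = s) (h3 : h t < s)
    (h4 : ∀ n, t ≤ n → h (n + 1) < h n ∨ h n = 0) (h5 : ∀ n, h n = 0 → h (n + 1) = 0)
    (hs2 : 2 ≤ s) (ht : (Function.support h).ncard + s + 4 ≤ t₂) :
    ((s * deg h : ℕ) : ℤ) < AA h s t₂ := by
  have hex : ∃ n, h n = 0 := ⟨s + t, h_zero_large h3 h4 h5 _ le_rfl⟩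
  obtain ⟨q, hq, hq'⟩ : ∃ q, h q = 0 ∧ ∀ n < q, h n ≠ 0 := by
    classical
    exact ⟨Nat.find hex, Nat.find_spec hex, fun n hn => Nat.find_min hex hn⟩
  have hz : ∀ n ≥ q, h n = 0 := by
    intro n hn
    induction n, hn using Nat.le_induction with
    | base => exact hq
    | succ n _ ih => exact h5 n ih
  have hsupp : (Function.support h).ncard = q := by
    have : Function.support h = (Finset.range q : Set ℕ) := by
      ext n
      simp only [Function.mem_support, Finset.coe_range, Set.mem_Iio]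
      constructor
      · intro hn
        by_contra h0
        exact hn (hz n (by omega))
      · exact hq' n
    rw [this, Set.ncard_coe_finset, Finset.card_range]
  rw [hsupp] at ht
  have hsq : s ≤ q := by
    by_contra h0
    rw [h1 q (by omega)] at hq
    omega
  have e1 : ∑ i ∈ Finset.range q, ((s : ℤ) + 5) * ((h i : ℤ) - if i < s then 1 else 0) ≤
      AA h s t₂ := by
    unfold AA
    have e2 : ∑ i ∈ Finset.range q, ((t₂ : ℤ) - i) * ((h i : ℤ) - if i < s then 1 else 0) ≤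
        ∑ i ∈ Finset.range t₂, ((t₂ : ℤ) - i) * ((h i : ℤ) - if i < s then 1 else 0) := by
      refine Finset.sum_le_sum_of_subset_of_nonneg (Finset.range_mono (by omega)) fun i hi _ => ?_
      rw [Finset.mem_range] at hi
      refine mul_nonneg ?_ (x_nonneg h1 i)
      have : (i : ℤ) < t₂ := by exact_mod_cast hi
      linarith
    refine le_trans (Finset.sum_le_sum fun i hi => ?_) e2
    rw [Finset.mem_range] at hi
    refine mul_le_mul_of_nonneg_right ?_ (x_nonneg h1 i)
    have : ((i + 1 : ℕ) : ℤ) ≤ q := by exact_mod_cast hi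
    have : ((q + s + 4 : ℕ) : ℤ) ≤ t₂ := by exact_mod_cast ht
    push_cast at *
    linarith
  refine lt_of_lt_of_le ?_ e1
  rw [← Finset.mul_sum, Finset.sum_sub_distrib]
  have e3 : ∑ i ∈ Finset.range q, (h i : ℤ) = deg h := by
    rw [deg_eq hz]
    push_cast
    rfl
  have e4 : ∑ i ∈ Finset.range q, (if i < s then (1 : ℤ) else 0) = s := by
    rw [← Finset.sum_filter]
    have : (Finset.range q).filter (fun i => i < s) = Finset.range s := by
      ext i
      simp only [Finset.mem_filter, Finset.mem_range]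
      omega
    rw [this]
    simp
  rw [e3, e4]
  have e5 : ∑ i ∈ Finset.range s, h i ≤ deg h := by
    rw [deg_eq hz]
    exact Finset.sum_le_sum_of_subset (Finset.range_mono hsq)
  have e6 : ∑ i ∈ Finset.range s, h i = ∑ i ∈ Finset.range s, (i + 1) :=
    Finset.sum_congr rfl fun i hi => h1 i (Finset.mem_range.1 hi)
  have e7 : (∑ i ∈ Finset.range s, (i + 1)) * 2 = s * (s + 1) := by
    rw [Finset.sum_add_distrib, add_mul, Finset.sum_range_id_mul_two]
    simp only [Finset.sum_const, Finset.card_range, smul_eq_mul, mul_one]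
    obtain ⟨v, rfl⟩ := Nat.exists_eq_add_of_le hs
    rw [show 1 + v - 1 = v by omega]
    ring
  have e8 : s * (s + 1) ≤ deg h * 2 := by
    rw [← e7, ← e6]
    exact Nat.mul_le_mul_right 2 e5
  have e9 : (s : ℤ) * (s + 1) ≤ deg h * 2 := by exact_mod_cast e8
  have hs' : (2 : ℤ) ≤ s := by exact_mod_cast hs2
  push_cast
  nlinarith

end Pool.Agent.Helper95.ME
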